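import Pool.Agent.Helper44.EX.Crit

set_option autoImplicit false

namespace Pool.Agent.Helper44.EX

/-- `G` is `Ext(A, B)` for the group `A` with the presentation `ρ` -/
def ExtIs {κ ι : Type} (ρ : (κ →₀ ℤ) →+ (ι →₀ ℤ)) (B G : Type) [AddCommGroup B] [AddCommGroup G] : Prop :=
  ∃ Φ : (κ → B) →+ G, Function.Surjective Φ ∧
    ∀ w : κ → B, Φ w = 0 ↔ ∃ v : (ι →₀ ℤ) →+ B, ∀ k, w k = v (ρ (Finsupp.single k 1))

theorem ExtIs.isExt {κ ι : Type} {ρ : (κ →₀ ℤ) →+ (ι →₀ ℤ)} {B G : Type} [AddCommGroup B] [AddCommGroup G]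
    (h : ExtIs ρ B G) (hρ : Function.Injective ρ) : IsExt G := by
  obtain ⟨Φ, h1, h2⟩ := h
  exact crit ρ hρ Φ h1 h2

/-- vanishing -/
theorem ExtIs.zero {κ ι : Type} (ρ : (κ →₀ ℤ) →+ (ι →₀ ℤ)) (B : Type) [AddCommGroup B]
    (h : ∀ w : κ → B, ∃ v : (ι →₀ ℤ) →+ B, ∀ k, w k = v (ρ (Finsupp.single k 1))) : ExtIs ρ B PUnit.{1} :=
  ⟨0, fun x => ⟨0, rfl⟩, fun w => ⟨fun _ => h w, fun _ => rfl⟩⟩

/-- direct sums in the second argument -/
theorem ExtIs.prod {κ ι : Type} {ρ : (κ →₀ ℤ) →+ (ι →₀ ℤ)} {B G B' G' : Type} [AddCommGroup B]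
    [AddCommGroup G] [AddCommGroup B'] [AddCommGroup G'] (h : ExtIs ρ B G) (h' : ExtIs ρ B' G') :
    ExtIs ρ (B × B') (G × G') := by
  obtain ⟨Φ, h1, h2⟩ := h
  obtain ⟨Φ', h1', h2'⟩ := h'
  refine ⟨{ toFun := fun w => (Φ fun k => (w k).1, Φ' fun k => (w k).2), map_zero' := ?_,
            map_add' := fun x y => ?_ }, ?_, fun w => ?_⟩
  · exact Prod.ext (map_zero Φ) (map_zero Φ')
  · exact Prod.ext (map_add Φ _ _) (map_add Φ' _ _)
  · rintro ⟨g, g'⟩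
    obtain ⟨w, hw⟩ := h1 g
    obtain ⟨w', hw'⟩ := h1' g'
    exact ⟨fun k => (w k, w' k), Prod.ext hw hw'⟩
  · change (Φ (fun k => (w k).1), Φ' fun k => (w k).2) = 0 ↔ _
    rw [Prod.mk_eq_zero, h2, h2']
    constructor
    · rintro ⟨⟨v, hv⟩, ⟨v', hv'⟩⟩
      exact ⟨v.prod v', fun k => Prod.ext (hv k) (hv' k)⟩
    · rintro ⟨v, hv⟩
      exact ⟨⟨(AddMonoidHom.fst B B').comp v, fun k => congrArg Prod.fst (hv k)⟩,
        ⟨(AddMonoidHom.snd B B').comp v, fun k => congrArg Prod.snd (hv k)⟩⟩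

/-- the direct sum of two presentations -/
noncomputable def sumRho {κ ι κ' ι' : Type} (ρ : (κ →₀ ℤ) →+ (ι →₀ ℤ)) (ρ' : (κ' →₀ ℤ) →+ (ι' →₀ ℤ)) :
    (κ ⊕ κ' →₀ ℤ) →+ (ι ⊕ ι' →₀ ℤ) :=
  Finsupp.sumFinsuppAddEquivProdFinsupp.symm.toAddMonoidHom.comp
    ((AddMonoidHom.prodMap ρ ρ').comp Finsupp.sumFinsuppAddEquivProdFinsupp.toAddMonoidHom)

theorem sumRho_inj {κ ι κ' ι' : Type} {ρ : (κ →₀ ℤ) →+ (ι →₀ ℤ)} {ρ' : (κ' →₀ ℤ) →+ (ι' →₀ ℤ)}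
    (h : Function.Injective ρ) (h' : Function.Injective ρ') : Function.Injective (sumRho ρ ρ') := by
  intro a b hab
  have h1 := Finsupp.sumFinsuppAddEquivProdFinsupp.symm.injective hab
  exact Finsupp.sumFinsuppAddEquivProdFinsupp.injective ((h.prodMap h') h1)

theorem sumRho_inl {κ ι κ' ι' : Type} (ρ : (κ →₀ ℤ) →+ (ι →₀ ℤ)) (ρ' : (κ' →₀ ℤ) →+ (ι' →₀ ℤ)) (k : κ) :
    sumRho ρ ρ' (Finsupp.single (Sum.inl k) 1) =
      Finsupp.sumFinsuppAddEquivProdFinsupp.symm (ρ (Finsupp.single k 1), 0) := by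
  change Finsupp.sumFinsuppAddEquivProdFinsupp.symm (AddMonoidHom.prodMap ρ ρ'
    (Finsupp.sumFinsuppAddEquivProdFinsupp (Finsupp.single (Sum.inl k) 1))) = _
  congr 1
  have h1 : Finsupp.sumFinsuppAddEquivProdFinsupp (Finsupp.single (Sum.inl k) (1 : ℤ)) =
      ((Finsupp.single k 1, 0) : (κ →₀ ℤ) × (κ' →₀ ℤ)) := by
    rw [← AddEquiv.eq_symm_apply]
    ext (i | i)
    · rw [Finsupp.sumFinsuppAddEquivProdFinsupp_symm_inl]
      exact Finsupp.single_apply_left Sum.inl_injective _ _ _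
    · rw [Finsupp.sumFinsuppAddEquivProdFinsupp_symm_inr]
      simp
  rw [h1]
  simp

theorem sumRho_inr {κ ι κ' ι' : Type} (ρ : (κ →₀ ℤ) →+ (ι →₀ ℤ)) (ρ' : (κ' →₀ ℤ) →+ (ι' →₀ ℤ)) (k : κ') :
    sumRho ρ ρ' (Finsupp.single (Sum.inr k) 1) =
      Finsupp.sumFinsuppAddEquivProdFinsupp.symm (0, ρ' (Finsupp.single k 1)) := by
  change Finsupp.sumFinsuppAddEquivProdFinsupp.symm (AddMonoidHom.prodMap ρ ρ'
    (Finsupp.sumFinsuppAddEquivProdFinsupp (Finsupp.single (Sum.inr k) 1))) = _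
  congr 1
  have h1 : Finsupp.sumFinsuppAddEquivProdFinsupp (Finsupp.single (Sum.inr k) (1 : ℤ)) =
      ((0, Finsupp.single k 1) : (κ →₀ ℤ) × (κ' →₀ ℤ)) := by
    rw [← AddEquiv.eq_symm_apply]
    ext (i | i)
    · rw [Finsupp.sumFinsuppAddEquivProdFinsupp_symm_inl]
      simp
    · rw [Finsupp.sumFinsuppAddEquivProdFinsupp_symm_inr]
      exact Finsupp.single_apply_left Sum.inr_injective _ _ _
  rw [h1]
  simp

/-- direct sums in the first argument -/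
theorem ExtIs.sum {κ ι κ' ι' : Type} {ρ : (κ →₀ ℤ) →+ (ι →₀ ℤ)} {ρ' : (κ' →₀ ℤ) →+ (ι' →₀ ℤ)} {B G G' : Type}
    [AddCommGroup B] [AddCommGroup G] [AddCommGroup G'] (h : ExtIs ρ B G) (h' : ExtIs ρ' B G') :
    ExtIs (sumRho ρ ρ') B (G × G') := by
  obtain ⟨Φ, h1, h2⟩ := h
  obtain ⟨Φ', h1', h2'⟩ := h'
  refine ⟨{ toFun := fun w => (Φ fun k => w (Sum.inl k), Φ' fun k => w (Sum.inr k)), map_zero' := ?_,
            map_add' := fun x y => ?_ }, ?_, fun w => ?_⟩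
  · exact Prod.ext (map_zero Φ) (map_zero Φ')
  · exact Prod.ext (map_add Φ _ _) (map_add Φ' _ _)
  · rintro ⟨g, g'⟩
    obtain ⟨w, hw⟩ := h1 g
    obtain ⟨w', hw'⟩ := h1' g'
    exact ⟨Sum.elim w w', Prod.ext hw hw'⟩
  · change (Φ (fun k => w (Sum.inl k)), Φ' fun k => w (Sum.inr k)) = 0 ↔ _
    rw [Prod.mk_eq_zero, h2, h2']
    constructor
    · rintro ⟨⟨v, hv⟩, ⟨v', hv'⟩⟩
      refine ⟨(AddMonoidHom.coprod v v').comp Finsupp.sumFinsuppAddEquivProdFinsupp.toAddMonoidHom, ?_⟩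
      rintro (k | k)
      · rw [sumRho_inl]
        change w (Sum.inl k) = AddMonoidHom.coprod v v' (Finsupp.sumFinsuppAddEquivProdFinsupp _)
        rw [AddEquiv.apply_symm_apply, hv k]
        simp
      · rw [sumRho_inr]
        change w (Sum.inr k) = AddMonoidHom.coprod v v' (Finsupp.sumFinsuppAddEquivProdFinsupp _)
        rw [AddEquiv.apply_symm_apply, hv' k]
        simp
    · rintro ⟨v, hv⟩
      refine ⟨⟨(v.comp Finsupp.sumFinsuppAddEquivProdFinsupp.symm.toAddMonoidHom).comp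
          (AddMonoidHom.inl _ _), fun k => ?_⟩,
        ⟨(v.comp Finsupp.sumFinsuppAddEquivProdFinsupp.symm.toAddMonoidHom).comp
          (AddMonoidHom.inr _ _), fun k => ?_⟩⟩
      · rw [hv, sumRho_inl]
        rfl
      · rw [hv, sumRho_inr]
        rfl

end Pool.Agent.Helper44.EX
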