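import Pool.Agent.Helper44.EX.Inj

set_option autoImplicit false

namespace Pool.Agent.Helper44.EX

/-- quotients of cotorsion groups -/
theorem Cotorsion.map {G H : Type} [AddCommGroup G] [AddCommGroup H] (h : Cotorsion G) (f : G →+ H)
    (hf : Function.Surjective f) : Cotorsion H := by
  intro g
  choose g' hg' using fun n => hf (g n)
  obtain ⟨x, hx⟩ := h g'
  exact ⟨fun n => f (x n), fun n => by rw [← hg' n, ← hx n, map_sub, map_nsmul]⟩

theorem Cotorsion.prod {G H : Type} [AddCommGroup G] [AddCommGroup H] (h : Cotorsion G) (h' : Cotorsion H) :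
    Cotorsion (G × H) := by
  intro g
  obtain ⟨x, hx⟩ := h fun n => (g n).1
  obtain ⟨y, hy⟩ := h' fun n => (g n).2
  exact ⟨fun n => (x n, y n), fun n => Prod.ext (hx n) (hy n)⟩

/-- the relations of `ℚ` in `A^(ℕ)` -/
theorem hom_solve {A J : Type} [AddCommGroup A] [AddCommGroup J] (hJ : Divisible J) (f : ℕ → A →+ J) :
    ∃ x : ℕ → A →+ J, ∀ n, x n - (n + 1) • x (n + 1) = f n := by
  -- the map `A^(ℕ) → A^(ℕ)`
  let σ : (ℕ →₀ A) →+ (ℕ →₀ A) := Finsupp.liftAddHom fun n =>
    Finsupp.singleAddHom n - (n + 1) • Finsupp.singleAddHom (n + 1)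
  have hσ : ∀ n a, σ (Finsupp.single n a) = Finsupp.single n a - (n + 1) • Finsupp.single (n + 1) a := by
    intro n a
    simp [σ]
  have hσ0 : ∀ a : ℕ →₀ A, σ a 0 = a 0 ∧ ∀ k, σ a (k + 1) = a (k + 1) - (k + 1) • a k := by
    intro a
    induction a using Finsupp.induction_linear with
    | zero => simp
    | add a b ha hb =>
      refine ⟨?_, fun k => ?_⟩
      · rw [AddMonoidHom.map_add, Finsupp.add_apply, ha.1, hb.1, Finsupp.add_apply]
      · rw [AddMonoidHom.map_add, Finsupp.add_apply, ha.2, hb.2, Finsupp.add_apply, Finsupp.add_apply,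
          smul_add]
        abel
    | single j z =>
      rw [hσ]
      refine ⟨?_, fun k => ?_⟩
      · simp [Finsupp.single_apply]
      · by_cases hk : j = k
        · subst hk
          simp
        · simp [Finsupp.single_apply, hk]
  have hinj : Function.Injective σ := by
    rw [injective_iff_map_eq_zero]
    intro a ha
    obtain ⟨h0, h1⟩ := hσ0 a
    rw [ha] at h0
    ext k
    induction k with
    | zero => simpa using h0.symm
    | succ k ih =>
      have := h1 k
      rw [ha, ih] at this
      simpa using this.symm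
  obtain ⟨h, hh⟩ := hJ.extend σ hinj (Finsupp.liftAddHom f)
  refine ⟨fun n => h.comp (Finsupp.singleAddHom n), fun n => ?_⟩
  ext a
  have := hh (Finsupp.single n a)
  rw [hσ, map_sub, map_nsmul, Finsupp.liftAddHom_apply_single] at this
  exact this

/-- **Groups of the form `Ext(A, B)` are cotorsion.** -/
theorem IsExt.cotorsion {G : Type} [AddCommGroup G] (hG : IsExt G) : Cotorsion G := by
  obtain ⟨ι, B, _, R, ⟨e⟩⟩ := hG
  refine Cotorsion.map ?_ e.symm.toAddMonoidHom e.symm.surjective
  -- an embedding of `B` in a divisible group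
  obtain ⟨I, _, hI, j, hj⟩ : ∃ (I : Type) (_ : AddCommGroup I) (_ : Divisible I) (j : B →+ I),
      Function.Injective j := by
    refine ⟨CharacterModule B → AddCircle (1 : ℚ), inferInstance, ?_,
      { toFun := fun b χ => χ b, map_zero' := by funext χ; simp, map_add' := fun a b => by funext χ; simp },
      ?_⟩
    · intro n hn x
      have : ∀ y : AddCircle (1 : ℚ), ∃ z, n • z = y := fun y =>
        ⟨DivisibleBy.div y (n : ℤ), by
          rw [← natCast_zsmul]
          exact DivisibleBy.div_cancel y (by exact_mod_cast hn.ne')⟩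
      choose z hz using fun χ => this (x χ)
      exact ⟨z, funext hz⟩
    · rw [injective_iff_map_eq_zero]
      intro b hb
      by_contra h
      obtain ⟨χ, hχ⟩ := CharacterModule.exists_character_apply_ne_zero_of_ne_zero h
      exact hχ (congrFun hb χ)
  let J := I ⧸ j.range
  let π : I →+ J := QuotientAddGroup.mk' j.range
  have hπ : Function.Surjective π := QuotientAddGroup.mk'_surjective _
  have hπ0 : ∀ x, π x = 0 ↔ x ∈ j.range := fun x => by
    rw [QuotientAddGroup.mk'_apply, QuotientAddGroup.eq_zero_iff]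
  have hJ : Divisible J := by
    intro n hn x
    obtain ⟨x, rfl⟩ := hπ x
    obtain ⟨y, hy⟩ := hI n hn x
    exact ⟨π y, by rw [← map_nsmul, hy]⟩
  let F := ι →₀ ℤ
  -- lifts from `J` to `I` on the free group
  have hlift : ∀ φ : F →+ J, ∃ χ : F →+ I, ∀ x, π (χ x) = φ x := by
    intro φ
    choose s hs using fun i : ι => hπ (φ (Finsupp.single i 1))
    refine ⟨Finsupp.liftAddHom fun i => zmultiplesHom I (s i), fun x => ?_⟩
    have : π.comp (Finsupp.liftAddHom fun i => zmultiplesHom I (s i)) = φ := by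
      refine Finsupp.addHom_ext' fun i => AddMonoidHom.ext_int ?_
      simp [hs]
    exact DFunLike.congr_fun this x
  -- maps into the range of `j`
  have hback : ∀ {X : Type} [AddCommGroup X] (u : X →+ I), (∀ x, π (u x) = 0) →
      ∃ u' : X →+ B, ∀ x, j (u' x) = u x := by
    intro X _ u hu
    choose u' hu' using fun x => (hπ0 (u x)).1 (hu x)
    refine ⟨{ toFun := u', map_zero' := hj ?_, map_add' := fun a b => hj ?_ }, hu'⟩
    · rw [hu', map_zero, map_zero]
    · rw [hu', map_add, map_add, hu', hu']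
  intro g
  choose f hf using fun n => QuotientAddGroup.mk_surjective (g n)
  -- extend to `F → I`
  choose ψ hψ using fun n => hI.extend R.subtype Subtype.val_injective (j.comp (f n))
  -- the maps on `F / R`
  have h1 : ∀ n, ∀ x ∈ R, (π.comp (ψ n)) x = 0 := by
    intro n x hx
    have := hψ n ⟨x, hx⟩
    change π (ψ n x) = 0
    rw [hπ0]
    exact ⟨f n ⟨x, hx⟩, this.symm⟩
  let φ : ℕ → (F ⧸ R) →+ J := fun n => QuotientAddGroup.lift R (π.comp (ψ n)) (h1 n)
  obtain ⟨x, hx⟩ := hom_solve hJ φ
  choose χ hχ using fun n => hlift ((x n).comp (QuotientAddGroup.mk' R))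
  -- restriction to `R`
  have h2 : ∀ n, ∀ r : R, π (((χ n).comp R.subtype) r) = 0 := by
    intro n r
    change π (χ n r) = 0
    rw [hχ]
    change x n (QuotientAddGroup.mk' R r) = 0
    rw [show QuotientAddGroup.mk' R (r : F) = 0 from (QuotientAddGroup.eq_zero_iff _).2 r.2, map_zero]
  choose h hh using fun n => hback ((χ n).comp R.subtype) (h2 n)
  have h3 : ∀ n, ∀ y : F, π ((χ n - (n + 1) • χ (n + 1) - ψ n) y) = 0 := by
    intro n y
    have h4 := DFunLike.congr_fun (hx n) (QuotientAddGroup.mk' R y)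
    have h5 : φ n (QuotientAddGroup.mk' R y) = π (ψ n y) := rfl
    rw [h5] at h4
    have h6 := hχ n y
    have h7 := hχ (n + 1) y
    simp only [AddMonoidHom.sub_apply, AddMonoidHom.smul_apply, map_sub, map_nsmul] at h4 ⊢
    rw [h6, h7, ← h4]
    simp
  choose u hu using fun n => hback (χ n - (n + 1) • χ (n + 1) - ψ n) (h3 n)
  refine ⟨fun n => QuotientAddGroup.mk (h n), fun n => ?_⟩
  rw [← hf n, ← sub_eq_zero]
  have h8 : h n - (n + 1) • h (n + 1) - f n = (u n).comp R.subtype := by
    ext r
    apply hj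
    have h9 := hh n r
    have h10 := hh (n + 1) r
    have h11 := hψ n r
    have h12 := hu n (r : F)
    simp only [AddMonoidHom.sub_apply, AddMonoidHom.smul_apply, map_sub, map_nsmul,
      AddMonoidHom.comp_apply] at h9 h10 h11 h12 ⊢
    rw [h9, h10, ← h11]
    exact h12.symm
  change QuotientAddGroup.mk' _ (h n) - (n + 1) • QuotientAddGroup.mk' _ (h (n + 1)) -
    QuotientAddGroup.mk' _ (f n) = 0
  rw [← map_nsmul, ← map_sub, ← map_sub, h8]
  exact (QuotientAddGroup.eq_zero_iff _).2 ⟨u n, rfl⟩

end Pool.Agent.Helper44.EX
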