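import Pool.Agent.Helper44.EX.Defs

set_option autoImplicit false

namespace Pool.Agent.Helper44.EX

/-- the criterion -/
theorem crit {κ ι : Type} {B G : Type} [AddCommGroup B] [AddCommGroup G]
    (ρ : (κ →₀ ℤ) →+ (ι →₀ ℤ)) (hρ : Function.Injective ρ) (Φ : (κ → B) →+ G)
    (hs : Function.Surjective Φ)
    (hk : ∀ w : κ → B, Φ w = 0 ↔ ∃ v : (ι →₀ ℤ) →+ B, ∀ k, w k = v (ρ (Finsupp.single k 1))) :
    IsExt G := by
  refine ⟨ι, B, inferInstance, ρ.range, ?_⟩
  let r : κ → ρ.range := fun k => ⟨ρ (Finsupp.single k 1), ⟨_, rfl⟩⟩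
  let Ψ : (ρ.range →+ B) →+ G :=
    Φ.comp { toFun := fun f k => f (r k), map_zero' := rfl, map_add' := fun _ _ => rfl }
  have hΨ : ∀ f, Ψ f = Φ fun k => f (r k) := fun _ => rfl
  -- homs on the range
  have hext : ∀ f f' : ρ.range →+ B, (∀ k, f (r k) = f' (r k)) → f = f' := by
    intro f f' h
    have h1 : f.comp ρ.rangeRestrict = f'.comp ρ.rangeRestrict := by
      refine Finsupp.addHom_ext' fun k => ?_
      refine AddMonoidHom.ext_int ?_
      exact h k
    ext ⟨_, a, rfl⟩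
    exact DFunLike.congr_fun h1 a
  have hsur : Function.Surjective Ψ := by
    intro g
    obtain ⟨w, rfl⟩ := hs g
    let e : (κ →₀ ℤ) ≃+ ρ.range := AddMonoidHom.ofInjective hρ
    let f : ρ.range →+ B :=
      (Finsupp.liftAddHom fun k => (zmultiplesHom B) (w k)).comp e.symm.toAddMonoidHom
    refine ⟨f, ?_⟩
    rw [hΨ]
    congr 1
    funext k
    have h2 : e.symm (r k) = Finsupp.single k 1 := by
      rw [AddEquiv.symm_apply_eq]
      rfl
    change (Finsupp.liftAddHom fun k => (zmultiplesHom B) (w k)) (e.symm (r k)) = w k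
    rw [h2]
    simp
  have hker : Ψ.ker = (AddMonoidHom.compHom' (P := B) ρ.range.subtype).range := by
    ext f
    rw [AddMonoidHom.mem_ker, hΨ, hk]
    constructor
    · rintro ⟨v, hv⟩
      exact ⟨v, hext _ _ fun k => (hv k).symm⟩
    · rintro ⟨v, rfl⟩
      exact ⟨v, fun k => rfl⟩
  exact ⟨((QuotientAddGroup.quotientKerEquivOfSurjective Ψ hsur).symm).trans
    (QuotientAddGroup.quotientAddEquivOfEq hker)⟩

/-- isomorphic groups -/
theorem IsExt.congr {G H : Type} [AddCommGroup G] [AddCommGroup H] (e : G ≃+ H) (h : IsExt H) : IsExt G := by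
  obtain ⟨ι, B, i, R, ⟨f⟩⟩ := h
  exact ⟨ι, B, i, R, ⟨e.trans f⟩⟩

/-- unique solutions of the equations `x n = w n + m n x (n + 1)` give an additive map. -/
theorem solver {C : Type} [AddCommGroup C] (m : ℕ → ℕ)
    (h1 : ∀ w : ℕ → C, ∃ x : ℕ → C, ∀ n, x n = w n + m n • x (n + 1))
    (h2 : ∀ x : ℕ → C, (∀ n, x n = m n • x (n + 1)) → ∀ n, x n = 0) :
    ∃ S : (ℕ → C) →+ (ℕ → C), (∀ w n, S w n = w n + m n • S w (n + 1)) ∧
      ∀ w x : ℕ → C, (∀ n, x n = w n + m n • x (n + 1)) → S w = x := by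
  have h3 : ∀ w x y : ℕ → C, (∀ n, x n = w n + m n • x (n + 1)) → (∀ n, y n = w n + m n • y (n + 1)) →
      x = y := by
    intro w x y hx hy
    have := h2 (x - y) fun n => by
      simp only [Pi.sub_apply]
      nth_rw 1 [hx n, hy n]
      rw [smul_sub]
      abel
    funext n
    exact sub_eq_zero.mp (this n)
  choose s hs using h1
  refine ⟨{ toFun := s, map_zero' := ?_, map_add' := ?_ }, fun w n => hs w n, fun w x hx => ?_⟩
  · exact h3 0 _ _ (hs 0) fun n => by simp
  · intro a b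
    refine h3 (a + b) _ _ (hs _) fun n => ?_
    simp only [Pi.add_apply]
    nth_rw 1 [hs a n, hs b n]
    rw [smul_add]
    abel
  · exact h3 w _ _ (hs w) hx

end Pool.Agent.Helper44.EX
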