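import Pool.Agent.Helper44.EX.Inj
import Pool.Agent.Helper44.EX.Cot

set_option autoImplicit false

namespace Pool.Agent.Helper44.EX

/-- a divisible subgroup is a direct summand -/
theorem split {G : Type} [AddCommGroup G] (P : AddSubgroup G) (hP : Divisible P) :
    ∃ (r : G →+ P) (e : G ≃+ P × r.ker), (∀ x : P, r x = x) ∧ ∀ x, ((e x).2 : G) = x - r x := by
  obtain ⟨r, hr⟩ := hP.extend P.subtype Subtype.val_injective (AddMonoidHom.id P)
  have hr' : ∀ x : P, r x = x := hr
  have h1 : ∀ x : G, x - (r x : G) ∈ r.ker := fun x => by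
    rw [AddMonoidHom.mem_ker, map_sub, hr', sub_self]
  refine ⟨r, { toFun := fun x => (r x, ⟨x - r x, h1 x⟩), invFun := fun y => (y.1 : G) + (y.2 : G),
               left_inv := fun x => ?_, right_inv := fun y => ?_, map_add' := fun x y => ?_ }, hr', fun x => rfl⟩
  · simp
  · have h2 : r ((y.1 : G) + (y.2 : G)) = y.1 := by
      rw [map_add, hr', show r (y.2 : G) = 0 from y.2.2, add_zero]
    refine Prod.ext h2 (Subtype.ext ?_)
    change (y.1 : G) + (y.2 : G) - (r ((y.1 : G) + (y.2 : G)) : G) = y.2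
    rw [h2]
    abel
  · refine Prod.ext (map_add r x y) (Subtype.ext ?_)
    change x + y - (r (x + y) : G) = (x - (r x : G)) + (y - (r y : G))
    rw [map_add]
    push_cast
    abel

/-- the images of homomorphisms from `ℚ` -/
def divPart (G : Type) [AddCommGroup G] : AddSubgroup G where
  carrier := {x | ∃ s : ℕ → G, s 0 = x ∧ ∀ n, s n = (n + 1) • s (n + 1)}
  zero_mem' := ⟨0, rfl, fun n => by simp⟩
  add_mem' := by
    rintro _ _ ⟨s, rfl, hs⟩ ⟨t, rfl, ht⟩
    refine ⟨s + t, rfl, fun n => ?_⟩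
    simp only [Pi.add_apply]
    nth_rw 1 [hs n, ht n]
    rw [smul_add]
  neg_mem' := by
    rintro _ ⟨s, rfl, hs⟩
    refine ⟨-s, rfl, fun n => ?_⟩
    simp only [Pi.neg_apply]
    nth_rw 1 [hs n]
    rw [smul_neg]

theorem seq_mem {G : Type} [AddCommGroup G] (s : ℕ → G) (hs : ∀ n, s n = (n + 1) • s (n + 1)) (n : ℕ) :
    s n ∈ divPart G := by
  refine ⟨fun k => (n + k).choose k • s (n + k), by simp, fun k => ?_⟩
  simp only
  rw [hs (n + k), smul_smul, smul_smul]
  have h1 : (n + k).choose k * (n + k + 1) = (k + 1) * (n + (k + 1)).choose (k + 1) := by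
    have := Nat.add_one_mul_choose_eq (n + k) k
    rw [← add_assoc, mul_comm (k + 1), ← this]
    ring
  rw [h1]
  rfl

theorem seq_fact {G : Type} [AddCommGroup G] (s : ℕ → G) (hs : ∀ n, s n = (n + 1) • s (n + 1)) (n : ℕ) :
    s 0 = n.factorial • s n := by
  induction n with
  | zero => simp
  | succ n ih =>
    rw [ih, hs n, smul_smul, Nat.factorial_succ, mul_comm]

theorem divPart_divisible (G : Type) [AddCommGroup G] : Divisible (divPart G) := by
  rintro n hn ⟨x, s, rfl, hs⟩
  refine ⟨(n - 1).factorial • ⟨s n, seq_mem s hs n⟩, Subtype.ext ?_⟩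
  change n • ((n - 1).factorial • s n) = s 0
  rw [seq_fact s hs n, smul_smul, Nat.mul_factorial_pred hn.ne']

/-- **Cotorsion groups are sums of a divisible group and a reduced cotorsion group.** -/
theorem Cotorsion.split {G : Type} [AddCommGroup G] (hG : Cotorsion G) :
    ∃ (D C : Type) (_ : AddCommGroup D) (_ : AddCommGroup C), Divisible D ∧ Cotorsion C ∧ Reduced C ∧
      Nonempty (G ≃+ D × C) := by
  obtain ⟨r, e, hr, he⟩ := EX.split (divPart G) (divPart_divisible G)
  refine ⟨divPart G, r.ker, inferInstance, inferInstance, divPart_divisible G, ?_, ?_, ⟨e⟩⟩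
  · refine hG.map ((AddMonoidHom.snd _ _).comp e.toAddMonoidHom) fun y => ?_
    exact ⟨e.symm (0, y), by simp⟩
  · intro x hx n
    have h1 : ∀ n, (x n : G) = (n + 1) • (x (n + 1) : G) := fun n => by
      have := hx n
      rw [sub_eq_zero] at this
      exact congrArg Subtype.val this
    have h2 := seq_mem (fun n => (x n : G)) h1 n
    have h3 : r (x n : G) = 0 := (x n).2
    have h4 := hr ⟨_, h2⟩
    have h5 : (⟨(x n : G), h2⟩ : divPart G) = 0 := by rw [← h4]; exact h3
    exact Subtype.ext (show (x n : G) = 0 from congrArg (fun z : divPart G => (z : G)) h5)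

/-- **Divisible groups are sums of two, without elements of order two and three.** -/
theorem Divisible.split {D : Type} [AddCommGroup D] (hD : Divisible D) :
    ∃ (E F : Type) (_ : AddCommGroup E) (_ : AddCommGroup F), Divisible E ∧ Divisible F ∧ NoTorsion 3 E ∧
      NoTorsion 2 F ∧ Nonempty (D ≃+ E × F) := by
  let P : AddSubgroup D :=
    { carrier := {x | ∃ k : ℕ, 2 ^ k • x = 0}
      zero_mem' := ⟨0, by simp⟩
      add_mem' := by
        rintro x y ⟨k, hk⟩ ⟨l, hl⟩
        refine ⟨k + l, ?_⟩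
        rw [smul_add, pow_add, mul_smul, mul_smul, hl, smul_zero, add_zero, smul_comm, hk, smul_zero]
      neg_mem' := by
        rintro x ⟨k, hk⟩
        exact ⟨k, by rw [smul_neg, hk, neg_zero]⟩ }
  have hP : Divisible P := by
    rintro n hn ⟨x, k, hk⟩
    obtain ⟨a, m, hm, hnm⟩ := Nat.exists_eq_two_pow_mul_odd hn.ne'
    obtain ⟨y, hy⟩ := hD n hn x
    have hco : IsCoprime ((2 ^ (k + a) : ℕ) : ℤ) (m : ℤ) :=
      Nat.isCoprime_iff_coprime.mpr (Nat.Coprime.pow_left _ (Nat.coprime_two_left.mpr hm))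
    obtain ⟨u, v, huv⟩ := hco
    have h1 : (2 ^ (k + a) : ℕ) • ((v * m) • y) = 0 := by
      have h2 : (2 ^ (k + a) : ℕ) • (m • y) = 0 := by
        rw [smul_smul, show 2 ^ (k + a) * m = 2 ^ k * n by rw [hnm, pow_add]; ring, mul_smul, hy, hk]
      rw [mul_smul, natCast_zsmul, smul_comm, h2, smul_zero]
    refine ⟨⟨(v * m) • y, k + a, h1⟩, Subtype.ext ?_⟩
    change n • ((v * m) • y) = x
    rw [smul_comm, hy]
    have h3 : ((2 ^ (k + a) : ℕ) : ℤ) • x = 0 := by
      rw [natCast_zsmul, pow_add, mul_comm, mul_smul, hk, smul_zero]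
    calc (v * m) • x = (u * ((2 ^ (k + a) : ℕ) : ℤ) + v * m) • x := by
          rw [add_smul, mul_smul u, h3, smul_zero, zero_add]
      _ = x := by rw [huv, one_smul]
  obtain ⟨r, e, hr, he⟩ := EX.split P hP
  refine ⟨P, r.ker, inferInstance, inferInstance, hP, ?_, ?_, ?_, ⟨e⟩⟩
  · intro n hn y
    obtain ⟨z, hz⟩ := hD n hn y
    refine ⟨(e z).2, ?_⟩
    apply Subtype.ext
    change n • ((e z).2 : D) = y
    rw [he, smul_sub, hz]
    have : n • (r z : D) = ((n • r z : P) : D) := rfl
    rw [this, ← map_nsmul, hz, show r (y : D) = 0 from y.2]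
    simp
  · rintro ⟨x, k, hk⟩ h3
    have h3' : 3 • x = 0 := congrArg Subtype.val h3
    apply Subtype.ext
    change x = 0
    have hco : IsCoprime ((2 ^ k : ℕ) : ℤ) ((3 : ℕ) : ℤ) :=
      Nat.isCoprime_iff_coprime.mpr (Nat.Coprime.pow_left _ (by norm_num))
    obtain ⟨u, v, huv⟩ := hco
    calc x = (1 : ℤ) • x := (one_smul _ _).symm
      _ = (u * ((2 ^ k : ℕ) : ℤ) + v * ((3 : ℕ) : ℤ)) • x := by rw [huv]
      _ = 0 := by rw [add_smul, mul_smul, mul_smul, natCast_zsmul, natCast_zsmul, hk, h3', smul_zero,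
                    smul_zero, add_zero]
  · intro x hx
    have hx' : 2 • (x : D) = 0 := congrArg Subtype.val hx
    have h1 : (x : D) ∈ P := ⟨1, by simpa using hx'⟩
    have h2 := hr ⟨_, h1⟩
    have h3 : r (x : D) = 0 := x.2
    have h4 : (⟨(x : D), h1⟩ : P) = 0 := by rw [← h2]; exact h3
    exact Subtype.ext (show (x : D) = 0 from congrArg (fun z : P => (z : D)) h4)

end Pool.Agent.Helper44.EX
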