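import Mathlib

/-!
# Groups of the form `Ext(A, B)`: definitions
-/

set_option autoImplicit false

namespace Pool.Agent.Helper44.EX

/-- `G` is isomorphic to `Ext(A, B)` for some abelian groups `A = ℤ^(ι) / R` and `B`: the homomorphisms from
`R` to `B` modulo the restrictions of those from `ℤ^(ι)` to `B`. -/
def IsExt (G : Type) [AddCommGroup G] : Prop :=
  ∃ (ι : Type) (B : Type) (_ : AddCommGroup B) (R : AddSubgroup (ι →₀ ℤ)),
    Nonempty (G ≃+ ((↥R →+ B) ⧸ (AddMonoidHom.compHom' (P := B) R.subtype).range))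

/-- `G` is cotorsion: `Ext(ℚ, G) = 0`, with `ℚ` presented by the generators `e n = 1 / n!` and the relations
`e n = (n + 1) e (n + 1)`. -/
def Cotorsion (G : Type) [AddCommGroup G] : Prop :=
  ∀ g : ℕ → G, ∃ x : ℕ → G, ∀ n, x n - (n + 1) • x (n + 1) = g n

/-- `G` is reduced: `Hom(ℚ, G) = 0`, with the same presentation. -/
def Reduced (G : Type) [AddCommGroup G] : Prop :=
  ∀ x : ℕ → G, (∀ n, x n - (n + 1) • x (n + 1) = 0) → ∀ n, x n = 0

/-- `G` is divisible. -/
def Divisible (G : Type) [AddCommGroup G] : Prop :=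
  ∀ n : ℕ, 0 < n → ∀ x : G, ∃ y : G, n • y = x

/-- `G` has no elements of order `q`. -/
def NoTorsion (q : ℕ) (G : Type) [AddCommGroup G] : Prop :=
  ∀ x : G, q • x = 0 → x = 0

/-- `G` contains no group isomorphic to `ℤ(l^∞)`, for all primes `l`: such a group is given by a sequence
`x 0, x 1, ...` with `l x 0 = 0`, `x 0 ≠ 0` and `l x (n + 1) = x n`. -/
def NoQuasicyclic (G : Type) [AddCommGroup G] : Prop :=
  ∀ l : ℕ, l.Prime → ∀ x : ℕ → G, l • x 0 = 0 → (∀ n, l • x (n + 1) = x n) → x 0 = 0

/-- Multiplication by `q` is bijective on `G`. -/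
def UniquelyDivisible (q : ℕ) (G : Type) [AddCommGroup G] : Prop :=
  Function.Bijective fun x : G => q • x

/-- The question: direct sums of groups of the form `Ext(A, B)` are of this form. -/
def ClosedUnderSums : Prop :=
  ∀ (G H : Type) [AddCommGroup G] [AddCommGroup H], IsExt G → IsExt H → IsExt (G × H)

end Pool.Agent.Helper44.EX
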