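import Pool.Agent.Helper44.EX.Inj
import Pool.Agent.Helper44.EX.Add

set_option autoImplicit false

namespace Pool.Agent.Helper44.EX

/-- the relations `u k - q u (k + 1)` of `ℤ[1/q]`, `u k = 1 / q ^ k` -/
noncomputable def rhoq (q : ℕ) : (ℕ →₀ ℤ) →+ (ℕ →₀ ℤ) :=
  Finsupp.liftAddHom fun k => (zmultiplesHom (ℕ →₀ ℤ))
    (Finsupp.single k 1 - Finsupp.single (k + 1) (q : ℤ))

theorem rhoq_single (q k : ℕ) : rhoq q (Finsupp.single k 1) =
    Finsupp.single k 1 - Finsupp.single (k + 1) (q : ℤ) := by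
  simp [rhoq]

theorem rhoq_apply (q : ℕ) (a : ℕ →₀ ℤ) : rhoq q a 0 = a 0 ∧ ∀ k, rhoq q a (k + 1) = a (k + 1) - q * a k := by
  induction a using Finsupp.induction_linear with
  | zero => simp
  | add a b ha hb =>
    refine ⟨?_, fun k => ?_⟩
    · rw [AddMonoidHom.map_add, Finsupp.add_apply, ha.1, hb.1, Finsupp.add_apply]
    · rw [AddMonoidHom.map_add, Finsupp.add_apply, ha.2, hb.2, Finsupp.add_apply, Finsupp.add_apply]; ring
  | single j z =>
    have h1 : Finsupp.single j z = z • Finsupp.single j (1 : ℤ) := by simp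
    rw [h1, map_zsmul, rhoq_single]
    simp only [Finsupp.coe_smul, Finsupp.coe_sub, Pi.smul_apply, Pi.sub_apply, smul_eq_mul]
    refine ⟨?_, fun k => ?_⟩
    · simp [Finsupp.single_apply]
    · simp only [Finsupp.single_apply]
      by_cases hk : j = k
      · subst hk
        simp [mul_comm]
      · simp [hk]

theorem rhoq_inj (q : ℕ) : Function.Injective (rhoq q) := by
  rw [injective_iff_map_eq_zero]
  intro a ha
  obtain ⟨h0, h1⟩ := rhoq_apply q a
  rw [ha] at h0
  have h2 : ∀ k, a k = 0 := by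
    intro k
    induction k with
    | zero => simpa using h0.symm
    | succ k ih =>
      have := h1 k
      rw [ha, ih] at this
      simpa using this.symm
  ext k
  exact h2 k

theorem hom_rhoq {C : Type} [AddCommGroup C] (q : ℕ) (v : (ℕ →₀ ℤ) →+ C) (k : ℕ) :
    v (rhoq q (Finsupp.single k 1)) =
      v (Finsupp.single k 1) - q • v (Finsupp.single (k + 1) 1) := by
  rw [rhoq_single, map_sub]
  congr 1
  rw [← natCast_zsmul, ← map_zsmul]
  simp

/-- the equations `x n = w n + q x (n + 1)` in the `q`-adic integers -/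
theorem padic_exists (q : ℕ) [hq : Fact q.Prime] (w : ℕ → ℤ_[q]) :
    ∃ x : ℕ → ℤ_[q], ∀ n, x n = w n + q • x (n + 1) := by
  have hsum : ∀ u : ℕ → ℤ_[q], Summable fun m => (q : ℤ_[q]) ^ m * u m := by
    intro u
    refine NonarchimedeanAddGroup.summable_of_tendsto_cofinite_zero ?_
    rw [Nat.cofinite_eq_atTop]
    refine squeeze_zero_norm (a := fun m : ℕ => ((q : ℝ)⁻¹) ^ m) (fun m => ?_) ?_
    · rw [norm_mul, norm_pow, PadicInt.norm_p]
      exact mul_le_of_le_one_right (by positivity) (PadicInt.norm_le_one _)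
    · refine tendsto_pow_atTop_nhds_zero_of_lt_one (by positivity) ?_
      exact inv_lt_one_of_one_lt₀ (by exact_mod_cast hq.out.one_lt)
  refine ⟨fun n => ∑' m, (q : ℤ_[q]) ^ m * w (n + m), fun n => ?_⟩
  simp only
  rw [(hsum fun m => w (n + m)).tsum_eq_zero_add]
  simp only [pow_zero, one_mul, add_zero]
  congr 1
  rw [nsmul_eq_mul, ← (hsum fun m => w (n + 1 + m)).tsum_mul_left]
  refine tsum_congr fun m => ?_
  rw [pow_succ, show n + (m + 1) = n + 1 + m by ring]
  ring

theorem padic_unique (q : ℕ) [hq : Fact q.Prime] (x : ℕ → ℤ_[q]) (hx : ∀ n, x n = q • x (n + 1)) (n : ℕ) :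
    x n = 0 := by
  have h1 : ∀ m n, ‖x n‖ ≤ ((q : ℝ)⁻¹) ^ m := by
    intro m
    induction m with
    | zero => intro n; simpa using PadicInt.norm_le_one _
    | succ m ih =>
      intro n
      rw [hx n, nsmul_eq_mul, norm_mul, PadicInt.norm_p, pow_succ, mul_comm]
      exact mul_le_mul_of_nonneg_right (ih _) (by positivity)
  have h2 : Filter.Tendsto (fun m : ℕ => ((q : ℝ)⁻¹) ^ m) Filter.atTop (nhds 0) :=
    tendsto_pow_atTop_nhds_zero_of_lt_one (by positivity)
      (inv_lt_one_of_one_lt₀ (by exact_mod_cast hq.out.one_lt))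
  have h3 : ‖x n‖ ≤ 0 := ge_of_tendsto' h2 fun m => h1 m n
  exact norm_le_zero_iff.mp h3

/-- `q`-divisible groups -/
theorem zero_extq (q : ℕ) (C : Type) [AddCommGroup C] (h : ∀ b : C, ∃ b' : C, q • b' = b) :
    ExtIs (rhoq q) C PUnit.{1} := by
  refine ExtIs.zero _ C fun w => ?_
  choose d hd using h
  let x : ℕ → C := fun n => Nat.rec 0 (fun k y => d (y - w k)) n
  refine ⟨Finsupp.liftAddHom fun k => (zmultiplesHom C) (x k), fun k => ?_⟩
  have h4 : ∀ k, (Finsupp.liftAddHom fun k => (zmultiplesHom C) (x k))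
      (Finsupp.single k (1 : ℤ)) = x k := fun k => by simp
  rw [hom_rhoq, h4, h4]
  have h5 : q • x (k + 1) = x k - w k := hd _
  rw [h5]
  abel

/-- **Divisible groups without elements of order `q`.** -/
theorem div_ext (q : ℕ) (hq : q.Prime) (D : Type) [AddCommGroup D] (hd : Divisible D) (ht : NoTorsion q D) :
    ∃ (B : Type) (_ : AddCommGroup B), ExtIs (rhoq q) B D ∧
      ∀ n : ℕ, ¬ q ∣ n → NoTorsion n D → ∀ b : B, ∃ b' : B, n • b' = b := by
  haveI : Fact q.Prime := ⟨hq⟩
  -- the complete group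
  let C : Type := D → ℤ_[q]
  -- a surjection onto `D`
  obtain ⟨θ, hθ⟩ : ∃ θ : C →+ D, Function.Surjective θ := by
    let i : (D →₀ ℤ) →+ C :=
      { toFun := fun a d => ((a d : ℤ) : ℤ_[q])
        map_zero' := by funext d; change ((0 : ℤ) : ℤ_[q]) = 0; simp
        map_add' := fun a b => by
          funext d
          change ((a d + b d : ℤ) : ℤ_[q]) = ((a d : ℤ) : ℤ_[q]) + ((b d : ℤ) : ℤ_[q])
          push_cast
          rfl }
    have hi : Function.Injective i := by
      rw [injective_iff_map_eq_zero]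
      intro a ha
      ext d
      have : ((a d : ℤ) : ℤ_[q]) = 0 := congrFun ha d
      exact_mod_cast this
    let g : (D →₀ ℤ) →+ D := Finsupp.liftAddHom fun d => zmultiplesHom D d
    obtain ⟨θ, hθ⟩ := hd.extend i hi g
    refine ⟨θ, fun d => ⟨i (Finsupp.single d 1), ?_⟩⟩
    rw [hθ]
    simp [g]
  -- solutions in `C`
  have h1 : ∀ w : ℕ → C, ∃ x : ℕ → C, ∀ n, x n = w n + q • x (n + 1) := by
    intro w
    choose x hx using fun d => padic_exists q fun n => w n d
    refine ⟨fun n d => x d n, fun n => ?_⟩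
    funext d
    exact hx d n
  have h2 : ∀ x : ℕ → C, (∀ n, x n = q • x (n + 1)) → ∀ n, x n = 0 := by
    intro x hx n
    funext d
    exact padic_unique q (fun n => x n d) (fun n => congrFun (hx n) d) n
  obtain ⟨S, hS, hS'⟩ := solver (fun _ => q) h1 h2
  let B := θ.ker
  let inc : (ℕ → B) →+ (ℕ → C) :=
    { toFun := fun w n => (w n : C)
      map_zero' := rfl
      map_add' := fun _ _ => rfl }
  let Φ : (ℕ → B) →+ D := (θ.comp (Pi.evalAddMonoidHom (fun _ : ℕ => C) 0)).comp (S.comp inc)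
  have hΦ : ∀ w, Φ w = θ (S (inc w) 0) := fun _ => rfl
  refine ⟨B, inferInstance, ⟨Φ, ?_, ?_⟩, ?_⟩
  · intro d
    -- division
    have h3 : ∀ c : C, ∃ c' : C, c - q • c' ∈ θ.ker := by
      intro c
      obtain ⟨y, hy⟩ := hd q hq.pos (θ c)
      obtain ⟨c', rfl⟩ := hθ y
      exact ⟨c', by rw [AddMonoidHom.mem_ker, map_sub, map_nsmul, hy, sub_self]⟩
    choose s hs using h3
    obtain ⟨c, rfl⟩ := hθ d
    let x : ℕ → C := fun n => Nat.rec c (fun _ c => s c) n
    have hx : ∀ n, x (n + 1) = s (x n) := fun _ => rfl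
    refine ⟨fun n => ⟨x n - q • x (n + 1), by rw [hx]; exact hs _⟩, ?_⟩
    rw [hΦ, hS' _ x fun n => by
      change x n = x n - q • x (n + 1) + q • x (n + 1)
      abel]
    rfl
  · intro w
    rw [hΦ]
    constructor
    · intro h0
      have h4 : ∀ n, θ (S (inc w) n) = 0 := by
        intro n
        induction n with
        | zero => exact h0
        | succ n ih =>
          have h5 := congrArg θ (hS (inc w) n)
          rw [ih, map_add, map_nsmul, show θ (inc w n) = 0 from (w n).2, zero_add] at h5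
          exact ht _ h5.symm
      let x : ℕ → B := fun n => ⟨S (inc w) n, h4 n⟩
      refine ⟨Finsupp.liftAddHom fun k => (zmultiplesHom B) (x k), fun k => ?_⟩
      have h6 : ∀ k, (Finsupp.liftAddHom fun k => (zmultiplesHom B) (x k))
          (Finsupp.single k (1 : ℤ)) = x k := fun k => by simp
      rw [hom_rhoq, h6, h6]
      apply Subtype.ext
      have h7 := hS (inc w) k
      change (w k : C) = S (inc w) k - q • S (inc w) (k + 1)
      rw [h7]
      change (w k : C) = (w k : C) + q • S (inc w) (k + 1) - q • S (inc w) (k + 1)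
      abel
    · rintro ⟨v, hv⟩
      rw [hS' (inc w) (fun n => (v (Finsupp.single n 1) : C)) fun n => ?_]
      · exact (v (Finsupp.single 0 1)).2
      · change (v (Finsupp.single n 1) : C) = (w n : C) + q • (v (Finsupp.single (n + 1) 1) : C)
        rw [hv n, hom_rhoq]
        push_cast
        abel
  · rintro n hn hnD ⟨b, hb⟩
    have h8 : ∀ z : ℤ_[q], ∃ y : ℤ_[q], n • y = z := by
      intro z
      have hu : IsUnit ((n : ℤ_[q])) := by
        rw [PadicInt.isUnit_iff]
        have := PadicInt.norm_natCast_eq_one_iff (p := q) (n := n)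
        rw [this]
        exact ((Nat.Prime.coprime_iff_not_dvd hq).2 hn)
      obtain ⟨u, hu⟩ := hu
      exact ⟨(u⁻¹ : ℤ_[q]ˣ) * z, by rw [nsmul_eq_mul, ← hu, Units.mul_inv_cancel_left]⟩
    choose f hf using h8
    refine ⟨⟨fun d => f (b d), ?_⟩, Subtype.ext (funext fun d => hf (b d))⟩
    rw [AddMonoidHom.mem_ker]
    apply hnD
    rw [← map_nsmul]
    have h9 : (n • fun d => f (b d)) = b := funext fun d => hf (b d)
    rw [h9]
    exact hb

theorem div (q : ℕ) (hq : q.Prime) (D : Type) [AddCommGroup D] (hd : Divisible D) (ht : NoTorsion q D) :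
    IsExt D := by
  obtain ⟨B, _, h, -⟩ := div_ext q hq D hd ht
  exact h.isExt (rhoq_inj q)

end Pool.Agent.Helper44.EX
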