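import Pool.Agent.Helper44.EX.Crit

set_option autoImplicit false

namespace Pool.Agent.Helper44.EX

theorem Divisible.int {D : Type} [AddCommGroup D] (hd : Divisible D) (z : ℤ) (hz : z ≠ 0) (x : D) :
    ∃ y : D, z • y = x := by
  obtain ⟨y, hy⟩ := hd z.natAbs (Int.natAbs_pos.mpr hz) x
  rcases Int.natAbs_eq z with h | h
  · exact ⟨y, by rw [h, natCast_zsmul]; exact hy⟩
  · exact ⟨-y, by rw [h, neg_smul, smul_neg, neg_neg, natCast_zsmul]; exact hy⟩

theorem Divisible.baer {D : Type} [AddCommGroup D] (hd : Divisible D) : Module.Baer ℤ D := by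
  letI : DivisibleBy D ℤ := divisibleByOfSMulRightSurj D ℤ fun {n} hn x => hd.int n hn x
  exact Module.Baer.of_divisible D

/-- extension of homomorphisms to divisible groups -/
theorem Divisible.extend {D M N : Type} [AddCommGroup D] [AddCommGroup M] [AddCommGroup N]
    (hd : Divisible D) (f : M →+ N) (hf : Function.Injective f) (g : M →+ D) :
    ∃ h : N →+ D, ∀ x, h (f x) = g x := by
  obtain ⟨h, hh⟩ := hd.baer.extension_property_addMonoidHom f hf g
  exact ⟨h, fun x => DFunLike.congr_fun hh x⟩

end Pool.Agent.Helper44.EX
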