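import Pool.Agent.Helper44.EX.Red
import Pool.Agent.Helper44.EX.Div

set_option autoImplicit false

namespace Pool.Agent.Helper44.EX

open Classical in
/-- **Divisible groups and reduced cotorsion groups at different primes.** -/
theorem mix (q : ℕ) (hq : q.Prime) (D C : Type) [AddCommGroup D] [AddCommGroup C] (hD : Divisible D)
    (hqD : NoTorsion q D) (hC : Cotorsion C) (hC' : Reduced C)
    (hqC : Function.Bijective fun x : C => q • x)
    (h : ∀ l : ℕ, l.Prime → NoTorsion l D ∨ Function.Bijective fun x : C => l • x) : IsExt (D × C) := by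
  obtain ⟨B, _, hB1, hB2⟩ := div_ext q hq D hD hqD
  let bij : ℕ → Prop := fun l => Function.Bijective fun x : C => l • x
  have hbij1 : bij 1 := by
    have : (fun x : C => 1 • x) = id := by funext x; simp
    change Function.Bijective fun x : C => 1 • x
    rw [this]
    exact Function.bijective_id
  have hbijm : ∀ a b, bij a → bij b → bij (a * b) := by
    intro a b ha hb
    have : (fun x : C => (a * b) • x) = (fun x : C => a • x) ∘ fun x : C => b • x := by
      funext x; simp [mul_smul]
    change Function.Bijective fun x : C => (a * b) • x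
    rw [this]
    exact ha.comp hb
  have hbijp : ∀ a n, bij a → bij (a ^ n) := by
    intro a n ha
    induction n with
    | zero => rwa [pow_zero]
    | succ n ih => rw [pow_succ]; exact hbijm _ _ ih ha
  let div : ℕ → Prop := fun l => ∀ b : B, ∃ b' : B, l • b' = b
  have hdiv1 : div 1 := fun b => ⟨b, one_smul _ _⟩
  have hdivm : ∀ a b, div a → div b → div (a * b) := by
    intro a b ha hb x
    obtain ⟨y, hy⟩ := ha x
    obtain ⟨z, hz⟩ := hb y
    exact ⟨z, by rw [mul_smul, hz, hy]⟩
  have hdivp : ∀ a n, div a → div (a ^ n) := by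
    intro a n ha
    induction n with
    | zero => rwa [pow_zero]
    | succ n ih => rw [pow_succ]; exact hdivm _ _ ih ha
  -- the two parts of `k + 2`
  let m : ℕ → ℕ := fun k => ∏ l ∈ (k + 2).primeFactors.filter fun l => ¬ bij l, l ^ (k + 2).factorization l
  let m' : ℕ → ℕ := fun k => ∏ l ∈ (k + 2).primeFactors.filter fun l => bij l, l ^ (k + 2).factorization l
  have hmm : ∀ k, m' k * m k = k + 2 := by
    intro k
    have h1 := Finset.prod_filter_mul_prod_filter_not (k + 2).primeFactors (fun l => bij l)
      fun l => l ^ (k + 2).factorization l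
    have h2 := Nat.factorization_prod_pow_eq_self (n := k + 2) (by omega)
    rw [Finsupp.prod, Nat.support_factorization] at h2
    exact h1.trans h2
  have hm0 : ∀ k, m k ≠ 0 := fun k h0 => by
    have := hmm k
    rw [h0] at this
    omega
  have hm' : ∀ k, bij (m' k) := fun k =>
    Finset.prod_induction _ bij hbijm hbij1 fun l hl => hbijp _ _ (Finset.mem_filter.1 hl).2
  have hm : ∀ k, div (m k) := fun k => by
    refine Finset.prod_induction _ div hdivm hdiv1 fun l hl => hdivp _ _ ?_
    obtain ⟨h1, h2⟩ := Finset.mem_filter.1 hl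
    have hl' := Nat.prime_of_mem_primeFactors h1
    refine hB2 l (fun h3 => ?_) ((h l hl').resolve_right h2)
    have := (Nat.prime_dvd_prime_iff_eq hq hl').1 h3
    subst this
    exact h2 hqC
  -- the products of the `m'`
  let Q : ℕ → ℕ := fun k => ∏ j ∈ Finset.range k, m' j
  have hQ : ∀ k, bij (Q k) := fun k => Finset.prod_induction _ bij hbijm hbij1 fun l _ => hm' l
  have hQs : ∀ k, Q (k + 1) = Q k * m' k := fun k => Finset.prod_range_succ _ _
  have key : ∀ k (y : C), m k • (Q (k + 1) • y) = Q k • ((k + 2) • y) := by
    intro k y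
    rw [hQs, ← mul_smul, ← mul_smul]
    congr 1
    rw [← hmm k]
    ring
  have hC1 : ExtIs (rho m) C C := by
    refine unique_ext m C (fun w => ?_) fun x hx n => ?_
    · choose w' hw' using fun k => (hQ k).2 (w k)
      obtain ⟨y, hy⟩ := cot_exists hC w'
      refine ⟨fun k => Q k • y k, fun k => ?_⟩
      simp only
      rw [key, hy k, smul_add]
      congr 1
      exact hw' k
    · choose y hy using fun k => (hQ k).2 (x k)
      have h1 := red_unique hC' y fun k => by
        refine (hQ k).1 ?_
        have h2 := hx k
        rw [← hy k, ← hy (k + 1)] at h2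
        exact h2.trans (key k _)
      rw [← hy n, h1 n]
      simp
  have e : D × C ≃+ (D × PUnit.{1}) × (PUnit.{1} × C) :=
    { toFun := fun x => ((x.1, 0), (0, x.2)), invFun := fun x => (x.1.1, x.2.2), left_inv := fun _ => rfl,
      right_inv := fun _ => rfl, map_add' := fun _ _ => rfl }
  refine IsExt.congr e (ExtIs.isExt (B := B × C) ?_ (sumRho_inj (rhoq_inj q) (rho_inj m hm0)))
  exact ExtIs.sum (hB1.prod (zero_extq q C hqC.2)) ((zero_ext m B hm).prod hC1)

end Pool.Agent.Helper44.EX
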