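import Pool.Agent.Helper44.EX.Red
import Pool.Agent.Helper44.EX.Div
import Pool.Agent.Helper44.EX.Dec
import Pool.Agent.Helper44.EX.Mix

set_option autoImplicit false

namespace Pool.Agent.Helper44.EX

theorem Reduced.prod {G H : Type} [AddCommGroup G] [AddCommGroup H] (h : Reduced G) (h' : Reduced H) :
    Reduced (G × H) := by
  intro x hx n
  exact Prod.ext (h (fun n => (x n).1) (fun n => congrArg Prod.fst (hx n)) n)
    (h' (fun n => (x n).2) (fun n => congrArg Prod.snd (hx n)) n)

theorem closed_iff : ClosedUnderSums ↔ ∀ (G : Type) [AddCommGroup G], Cotorsion G → IsExt G := by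
  constructor
  · intro h G _ hG
    obtain ⟨D, C, _, _, hD, hC, hC', ⟨e⟩⟩ := hG.split
    obtain ⟨E, F, _, _, hE, hF, hE3, hF2, ⟨e'⟩⟩ := hD.split
    exact IsExt.congr e (h D C (IsExt.congr e' (h E F (div 3 Nat.prime_three E hE hE3)
      (div 2 Nat.prime_two F hF hF2))) (red C hC hC'))
  · intro h G H _ _ hG hH
    exact h (G × H) (hG.cotorsion.prod hH.cotorsion)

/-- two reduced groups -/
theorem reduced_sum (G H : Type) [AddCommGroup G] [AddCommGroup H] (hG : IsExt G) (hH : IsExt H)
    (hG' : Reduced G) (hH' : Reduced H) : IsExt (G × H) :=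
  red _ (hG.cotorsion.prod hH.cotorsion) (hG'.prod hH')

/-- two groups with torsion-free divisible part, uniquely divisible by a prime -/
theorem torsionfree_sum (q : ℕ) (hq : q.Prime) (G H : Type) [AddCommGroup G] [AddCommGroup H] (hG : IsExt G)
    (hH : IsExt H) (hG1 : UniquelyDivisible q G) (hH1 : UniquelyDivisible q H) (hG2 : NoQuasicyclic G)
    (hH2 : NoQuasicyclic H) : IsExt (G × H) := by
  obtain ⟨D, C, _, _, hD, hC, hC', ⟨e⟩⟩ := (hG.cotorsion.prod hH.cotorsion).split
  have hN : ∀ l : ℕ, l.Prime → NoTorsion l D := by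
    intro l hl y hy
    choose d hd using fun x : D => hD l hl.pos x
    let x : ℕ → D := fun n => Nat.rec y (fun _ z => d z) n
    have hx : ∀ n, l • x (n + 1) = x n := fun n => hd (x n)
    let f : D → G × H := fun z => e.symm (z, 0)
    have hf : ∀ (n : ℕ) z, f (n • z) = n • f z := fun n z => by
      simp only [f]
      rw [← map_nsmul, Prod.smul_mk, smul_zero]
    have h0 : f 0 = 0 := map_zero e.symm
    have h1 : (f y).1 = 0 := hG2 l hl (fun n => (f (x n)).1)
      (by
        change l • (f y).1 = 0
        rw [← Prod.smul_fst, ← hf, hy, h0]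
        rfl)
      fun n => by
        change l • (f (x (n + 1))).1 = (f (x n)).1
        rw [← Prod.smul_fst, ← hf, hx]
    have h2 : (f y).2 = 0 := hH2 l hl (fun n => (f (x n)).2)
      (by
        change l • (f y).2 = 0
        rw [← Prod.smul_snd, ← hf, hy, h0]
        rfl)
      fun n => by
        change l • (f (x (n + 1))).2 = (f (x n)).2
        rw [← Prod.smul_snd, ← hf, hx]
    have h3 : f y = 0 := Prod.ext h1 h2
    have h4 : ((y, 0) : D × C) = 0 := by
      have := congrArg e h3
      simpa [f] using this
    exact congrArg Prod.fst h4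
  have hb : Function.Bijective fun x : C => q • x := by
    have hGH : Function.Bijective fun x : G × H => q • x := by
      have : (fun x : G × H => q • x) = Prod.map (fun x : G => q • x) (fun x : H => q • x) := by
        funext x
        rfl
      rw [this]
      exact hG1.prodMap hH1
    constructor
    · intro a b hab
      have h1 : q • e.symm (0, a) = q • e.symm (0, b) := by
        rw [← map_nsmul, ← map_nsmul, Prod.smul_mk, Prod.smul_mk]
        simp only at hab
        rw [hab]
      have h2 := e.symm.injective (hGH.1 h1)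
      exact congrArg Prod.snd h2
    · intro c
      obtain ⟨z, hz⟩ := hGH.2 (e.symm (0, c))
      refine ⟨(e z).2, ?_⟩
      have h1 := congrArg e hz
      simp only [map_nsmul, AddEquiv.apply_symm_apply] at h1
      have h2 := congrArg Prod.snd h1
      exact h2
  exact IsExt.congr e (mix q hq D C hD (hN q hq) hC hC' hb fun l hl => Or.inl (hN l hl))

end Pool.Agent.Helper44.EX
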