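import Pool.Agent.Helper44.EX.Add

set_option autoImplicit false

namespace Pool.Agent.Helper44.EX

/-- the relations `m k u k - u (k - 1)` of `u k = 1 / (m 0 ... m k)` modulo integers -/
noncomputable def rho (m : ℕ → ℕ) : (ℕ →₀ ℤ) →+ (ℕ →₀ ℤ) :=
  Finsupp.liftAddHom fun k => (zmultiplesHom (ℕ →₀ ℤ))
    (Finsupp.single k (m k : ℤ) - (if k = 0 then 0 else Finsupp.single (k - 1) 1))

theorem rho_single (m : ℕ → ℕ) (k : ℕ) : rho m (Finsupp.single k 1) =
    Finsupp.single k (m k : ℤ) - (if k = 0 then 0 else Finsupp.single (k - 1) 1) := by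
  simp [rho]

theorem rho_apply (m : ℕ → ℕ) (a : ℕ →₀ ℤ) (k : ℕ) : rho m a k = (m k : ℤ) * a k - a (k + 1) := by
  induction a using Finsupp.induction_linear with
  | zero => simp
  | add a b ha hb =>
    rw [AddMonoidHom.map_add, Finsupp.add_apply, ha, hb, Finsupp.add_apply, Finsupp.add_apply]; ring
  | single j z =>
    have h1 : Finsupp.single j z = z • Finsupp.single j (1 : ℤ) := by simp
    rw [h1, map_zsmul, rho_single]
    simp only [Finsupp.coe_smul, Finsupp.coe_sub, Pi.smul_apply, Pi.sub_apply, smul_eq_mul]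
    rcases j with _ | j
    · simp only [if_true, Finsupp.single_apply]
      by_cases hk : 0 = k
      · subst hk; simp [mul_comm]
      · simp [hk]
    · have hj : j + 1 ≠ 0 := by omega
      simp only [hj, if_false, Nat.add_sub_cancel, Finsupp.single_apply]
      by_cases hk : j + 1 = k
      · subst hk
        simp [mul_comm]
      · by_cases hk' : j = k
        · subst hk'
          simp
        · simp [hk, hk']

theorem rho_inj (m : ℕ → ℕ) (hm : ∀ k, m k ≠ 0) : Function.Injective (rho m) := by
  rw [injective_iff_map_eq_zero]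
  intro a ha
  have h1 : ∀ k : ℕ, (m k : ℤ) * a k = a (k + 1) := by
    intro k
    have := DFunLike.congr_fun ha k
    rw [rho_apply] at this
    simpa [sub_eq_zero] using this
  obtain ⟨N, hN⟩ : ∃ N, ∀ n, N ≤ n → a n = 0 := by
    refine ⟨a.support.sup id + 1, fun n hn => ?_⟩
    by_contra h
    have := Finset.le_sup (f := id) (Finsupp.mem_support_iff.mpr h)
    simp only [id] at this
    omega
  have h2 : ∀ t k, N ≤ k + t → a k = 0 := by
    intro t
    induction t with
    | zero => intro k hk; exact hN k (by omega)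
    | succ t ih =>
      intro k hk
      have h3 := h1 k
      rw [ih (k + 1) (by omega)] at h3
      rcases mul_eq_zero.mp h3 with h4 | h4
      · exact absurd (by exact_mod_cast h4) (hm k)
      · exact h4
  ext k
  exact h2 N k (by omega)

theorem hom_single {C : Type} [AddCommGroup C] (v : (ℕ →₀ ℤ) →+ C) (k : ℕ) (z : ℤ) :
    v (Finsupp.single k z) = z • v (Finsupp.single k 1) := by
  rw [← map_zsmul]
  simp

theorem hom_rho {C : Type} [AddCommGroup C] (m : ℕ → ℕ) (v : (ℕ →₀ ℤ) →+ C) (k : ℕ) :
    v (rho m (Finsupp.single k 1)) =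
      m k • v (Finsupp.single k 1) - (if k = 0 then 0 else v (Finsupp.single (k - 1) 1)) := by
  rw [rho_single, map_sub, hom_single v k (m k : ℤ)]
  congr 1
  · rw [natCast_zsmul]
  · split_ifs <;> simp

/-- groups in which the equations `x n = w n + m n x (n + 1)` have unique solutions -/
theorem unique_ext (m : ℕ → ℕ) (C : Type) [AddCommGroup C]
    (h1 : ∀ w : ℕ → C, ∃ x : ℕ → C, ∀ n, x n = w n + m n • x (n + 1))
    (h2 : ∀ x : ℕ → C, (∀ n, x n = m n • x (n + 1)) → ∀ n, x n = 0) : ExtIs (rho m) C C := by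
  obtain ⟨S, hS, hS'⟩ := solver m h1 h2
  let Φ : (ℕ → C) →+ C := (Pi.evalAddMonoidHom (fun _ : ℕ => C) 0).comp S
  have hΦ : ∀ w, Φ w = S w 0 := fun _ => rfl
  refine ⟨Φ, ?_, ?_⟩
  · intro c
    refine ⟨fun n => if n = 0 then c else 0, ?_⟩
    rw [hΦ, hS' _ (fun n => if n = 0 then c else 0)]
    · simp
    · intro n
      simp
  · intro w
    rw [hΦ]
    constructor
    · intro h0
      refine ⟨Finsupp.liftAddHom fun k => (zmultiplesHom C) (-(S w (k + 1))), fun k => ?_⟩
      have h4 : ∀ k, (Finsupp.liftAddHom fun k => (zmultiplesHom C) (-(S w (k + 1))))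
          (Finsupp.single k (1 : ℤ)) = -(S w (k + 1)) := fun k => by simp
      rw [hom_rho, h4]
      have h3 := hS w k
      rcases k with _ | k
      · rw [h0] at h3
        rw [if_pos rfl, sub_zero, smul_neg]
        exact eq_neg_of_add_eq_zero_left h3.symm
      · rw [if_neg (by omega), h4, Nat.add_sub_cancel, smul_neg, sub_neg_eq_add]
        rw [h3]
        abel
    · rintro ⟨v, hv⟩
      have h3 : S w = fun n => if n = 0 then 0 else - v (Finsupp.single (n - 1) 1) := by
        refine hS' w _ fun n => ?_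
        rw [hv n, hom_rho]
        rcases n with _ | n
        · simp
        · simp only [Nat.add_eq_zero_iff, one_ne_zero, and_false, if_false, Nat.add_sub_cancel]
          rw [smul_neg]
          abel
      rw [h3]
      simp

/-- groups divisible by the numbers `m n` -/
theorem zero_ext (m : ℕ → ℕ) (B : Type) [AddCommGroup B] (h : ∀ k, ∀ b : B, ∃ b' : B, m k • b' = b) :
    ExtIs (rho m) B PUnit.{1} := by
  refine ExtIs.zero _ B fun w => ?_
  choose d hd using h
  let x : ℕ → B := fun n => Nat.rec (d 0 (w 0)) (fun k y => d (k + 1) (w (k + 1) + y)) n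
  refine ⟨Finsupp.liftAddHom fun k => (zmultiplesHom B) (x k), fun k => ?_⟩
  have h4 : ∀ k, (Finsupp.liftAddHom fun k => (zmultiplesHom B) (x k))
      (Finsupp.single k (1 : ℤ)) = x k := fun k => by simp
  rw [hom_rho, h4]
  rcases k with _ | k
  · rw [if_pos rfl, sub_zero]
    exact (hd 0 (w 0)).symm
  · rw [if_neg (by omega), h4, Nat.add_sub_cancel]
    have h5 : m (k + 1) • x (k + 1) = w (k + 1) + x k := hd (k + 1) _
    rw [h5]
    abel

/-- reduced cotorsion groups: unique solutions -/
theorem cot_exists {C : Type} [AddCommGroup C] (hc : Cotorsion C) (w : ℕ → C) :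
    ∃ x : ℕ → C, ∀ n, x n = w n + (n + 2) • x (n + 1) := by
  obtain ⟨x, hx⟩ := hc fun n => if n = 0 then 0 else w (n - 1)
  refine ⟨fun n => x (n + 1), fun n => ?_⟩
  have := hx (n + 1)
  rw [if_neg (by omega), Nat.add_sub_cancel, sub_eq_iff_eq_add] at this
  exact this

theorem red_unique {C : Type} [AddCommGroup C] (hr : Reduced C) (x : ℕ → C)
    (hx : ∀ n, x n = (n + 2) • x (n + 1)) (n : ℕ) : x n = 0 := by
  have h3 := hr (fun n => if n = 0 then x 0 else x (n - 1)) fun n => by
    rcases n with _ | n
    · simp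
    · simp only [Nat.add_eq_zero_iff, one_ne_zero, and_false, if_false, Nat.add_sub_cancel]
      rw [hx n]
      simp
  simpa using h3 (n + 1)

/-- **Reduced cotorsion groups.** -/
theorem red (C : Type) [AddCommGroup C] (hc : Cotorsion C) (hr : Reduced C) : IsExt C :=
  (unique_ext (fun n => n + 2) C (cot_exists hc) (red_unique hr)).isExt
    (rho_inj _ fun k => by omega)

end Pool.Agent.Helper44.EX
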